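import Mathlib

/-!
# Tolerance graphs have an efficient local representation
-/

set_option autoImplicit false

namespace Pool.Agent.Results.MP_04ae81_co.ToleranceLabels

/-- `G` is a tolerance graph: there are closed intervals `[L v, R v]` and tolerances `t v > 0`
such that distinct vertices `v`, `w` are adjacent exactly when the length of the intersection of
their intervals is at least `min (t v) (t w)`. -/
def IsToleranceGraph {V : Type*} (G : SimpleGraph V) : Prop :=
  ∃ L R t : V → ℝ, (∀ v, L v ≤ R v) ∧ (∀ v, 0 < t v) ∧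
    ∀ v w, v ≠ w → (G.Adj v w ↔
      min (t v) (t w) ≤ max 0 (min (R v) (R w) - max (L v) (L w)))

/-- Number of vertices `u` with `g u < x`. -/
noncomputable def rk {V : Type*} [Fintype V] (g : V → ℝ) (x : ℝ) : ℕ := by
  classical exact (Finset.univ.filter fun u => g u < x).card

lemma rk_le {V : Type*} [Fintype V] (g : V → ℝ) (x : ℝ) : rk g x ≤ Fintype.card V := by
  classical
  unfold rk
  exact Finset.card_le_univ _

lemma rk_iff {V : Type*} [Fintype V] (g : V → ℝ) (x : ℝ) (w : V) :
    rk g x ≤ rk g (g w) ↔ x ≤ g w := by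
  classical
  unfold rk
  constructor
  · intro h
    by_contra hlt
    push Not at hlt
    refine absurd h (not_le.2 (Finset.card_lt_card ?_))
    rw [Finset.ssubset_iff_of_subset]
    · exact ⟨w, by simp [hlt], by simp⟩
    · intro u hu
      simp only [Finset.mem_filter, Finset.mem_univ, true_and] at hu ⊢
      exact hu.trans hlt
  · intro h
    refine Finset.card_le_card ?_
    intro u hu
    simp only [Finset.mem_filter, Finset.mem_univ, true_and] at hu ⊢
    exact lt_of_lt_of_le hu h

/-- The encoding of six natural numbers by one. -/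
def code (a b c d e f : ℕ) : ℕ :=
  Nat.pair (Nat.pair (Nat.pair a b) (Nat.pair c d)) (Nat.pair e f) + 1

/-- The six fields of a label. -/
def fa (m : ℕ) : ℕ := (Nat.unpair (Nat.unpair (Nat.unpair (m - 1)).1).1).1
def fb (m : ℕ) : ℕ := (Nat.unpair (Nat.unpair (Nat.unpair (m - 1)).1).1).2
def fc (m : ℕ) : ℕ := (Nat.unpair (Nat.unpair (Nat.unpair (m - 1)).1).2).1
def fd (m : ℕ) : ℕ := (Nat.unpair (Nat.unpair (Nat.unpair (m - 1)).1).2).2
def fe (m : ℕ) : ℕ := (Nat.unpair (Nat.unpair (m - 1)).2).1
def ff (m : ℕ) : ℕ := (Nat.unpair (Nat.unpair (m - 1)).2).2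

lemma fa_code (a b c d e f : ℕ) : fa (code a b c d e f) = a := by simp [fa, code]
lemma fb_code (a b c d e f : ℕ) : fb (code a b c d e f) = b := by simp [fb, code]
lemma fc_code (a b c d e f : ℕ) : fc (code a b c d e f) = c := by simp [fc, code]
lemma fd_code (a b c d e f : ℕ) : fd (code a b c d e f) = d := by simp [fd, code]
lemma fe_code (a b c d e f : ℕ) : fe (code a b c d e f) = e := by simp [fe, code]
lemma ff_code (a b c d e f : ℕ) : ff (code a b c d e f) = f := by simp [ff, code]

lemma pair_lt {a b N : ℕ} (ha : a < N) (hb : b < N) : Nat.pair a b < N ^ 2 := by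
  refine lt_of_lt_of_le (Nat.pair_lt_max_add_one_sq a b) ?_
  exact Nat.pow_le_pow_left (by have := max_lt ha hb; omega) 2

lemma code_le {a b c d e f N : ℕ} (ha : a < N) (hb : b < N) (hc : c < N) (hd : d < N)
    (he : e < N) (hf : f < N) : code a b c d e f ≤ N ^ 8 := by
  have h1 := pair_lt (pair_lt (pair_lt ha hb) (pair_lt hc hd))
    (lt_of_lt_of_le (pair_lt he hf) (?_ : N ^ 2 ≤ (N ^ 2) ^ 2))
  · unfold code
    have : ((N ^ 2) ^ 2) ^ 2 = N ^ 8 := by ring
    omega
  · have : 1 ≤ N ^ 2 := Nat.one_le_pow _ _ (by omega)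
    nlinarith

/-- One half of the adjacency rule. -/
def half (m m' : ℕ) : Prop := fa m ≤ fb m ∧ fa m ≤ fb m' ∧ fc m' ≤ fd m ∧ fe m ≤ ff m'

theorem result : ∃ (A : ℕ → ℕ → Prop) (k : ℕ), (∀ a b, A a b ↔ A b a) ∧ 0 < k ∧
    ∀ (V : Type) [Fintype V] (G : SimpleGraph V), IsToleranceGraph G →
      ∃ ℓ : V → ℕ, (∀ v, 1 ≤ ℓ v ∧ ℓ v ≤ Fintype.card V ^ k) ∧
        ∀ v w, v ≠ w → (G.Adj v w ↔ A (ℓ v) (ℓ w)) := by
  refine ⟨fun a b => half a b ∨ half b a, 16, fun a b => or_comm, by norm_num, ?_⟩
  rintro V _ G ⟨L, R, t, -, ht, hadj⟩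
  rcases Nat.lt_or_ge (Fintype.card V) 2 with hn | hn
  · -- at most one vertex
    refine ⟨fun _ => 1, fun v => ⟨le_rfl, ?_⟩, fun v w hvw => ?_⟩
    · exact Nat.one_le_pow _ _ (Fintype.card_pos_iff.2 ⟨v⟩)
    · exact absurd (Fintype.card_le_one_iff.1 (by omega) v w) hvw
  · let ℓ : V → ℕ := fun v => code (rk (fun u => R u - L u) (t v))
      (rk (fun u => R u - L u) (R v - L v)) (rk (fun u => R u - t u) (L v))
      (rk (fun u => R u - t u) (R v - t v)) (rk R (L v + t v)) (rk R (R v))
    have hhalf : ∀ v w, half (ℓ v) (ℓ w) ↔ t v ≤ min (R v) (R w) - max (L v) (L w) := by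
      intro v w
      simp only [half, ℓ, fa_code, fb_code, fc_code, fd_code, fe_code, ff_code]
      rw [rk_iff (fun u => R u - L u) (t v) v, rk_iff (fun u => R u - L u) (t v) w,
        rk_iff (fun u => R u - t u) (L w) v, rk_iff R (L v + t v) w]
      constructor
      · rintro ⟨h1, h2, h3, h4⟩
        rcases min_choice (R v) (R w) with h5 | h5 <;> rcases max_choice (L v) (L w) with h6 | h6 <;>
          rw [h5, h6] <;> linarith
      · intro h
        have h1 := min_le_left (R v) (R w)
        have h2 := min_le_right (R v) (R w)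
        have h3 := le_max_left (L v) (L w)
        have h4 := le_max_right (L v) (L w)
        refine ⟨?_, ?_, ?_, ?_⟩ <;> linarith
    refine ⟨ℓ, fun v => ⟨by simp [ℓ, code], ?_⟩, fun v w hvw => ?_⟩
    · have hb : ∀ (g : V → ℝ) (x : ℝ), rk g x < Fintype.card V + 1 :=
        fun g x => Nat.lt_succ_of_le (rk_le g x)
      refine (code_le (hb _ _) (hb _ _) (hb _ _) (hb _ _) (hb _ _) (hb _ _)).trans ?_
      calc (Fintype.card V + 1) ^ 8 ≤ (Fintype.card V ^ 2) ^ 8 :=
            Nat.pow_le_pow_left (by nlinarith) 8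
        _ = Fintype.card V ^ 16 := by rw [← pow_mul]
    · beta_reduce
      rw [hadj v w hvw, hhalf v w, hhalf w v, min_comm (R w), max_comm (L w), min_le_iff]
      constructor
      · rintro (h | h)
        · left
          rcases le_max_iff.1 h with h | h
          · linarith [ht v]
          · exact h
        · right
          rcases le_max_iff.1 h with h | h
          · linarith [ht w]
          · exact h
      · rintro (h | h)
        · exact Or.inl (le_max_of_le_right h)
        · exact Or.inr (le_max_of_le_right h)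

end Pool.Agent.Results.MP_04ae81_co.ToleranceLabels
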